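import Mathlib
import Pool.Agent.Helper98.CHC.Min
import Pool.Agent.Helper98.CHD.Bad

/-!
# CHE: lifts with fixed product to any model of the multiplicative base change

`Rel m j w0 r q` : over the multiplicative group `q` is a lift of `r` to the model `V` of the base
change `u = w ^ m`, such that the product of the coordinates `w` is `w0`.
-/

set_option autoImplicit false
set_option linter.unusedSectionVars false

namespace CX.CHE

open CX.VC CX.VF Function
open CX.CHC CX.CHV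
open CX.Pool.Agent.Helper51.EW
open CX.CHI (eig_iter)
open CX.CHD (aut_iter eig_one)

universe u

variable {k : Type u} [Field k] {W V : Wei k} {m j n : ℕ}

/-- `q` is a lift of `r` over the multiplicative group, and the product of the coordinates is
`w0`. -/
def Rel (m j : ℕ) (w0 : k) (r : Fin n → WPt W k) (q : Fin n → WPt V k) : Prop :=
  ∃ (a : Fin n → Coord V k) (b : Fin n → Coord W k), (∀ i, (a i).u 0 = 1) ∧
    (∀ i, (b i).u 0 = 1) ∧ (∀ i, (b i).u 1 = (a i).u 1 ^ m) ∧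
    (∀ i, (b i).w = ![((a i).u 1 ^ j) ^ 2 * (a i).w 0, ((a i).u 1 ^ j) ^ 3 * (a i).w 1,
      (a i).w 2]) ∧ (∏ i, (a i).u 1 = w0) ∧
    (∀ i, q i = WPt.mk (a i)) ∧ ∀ i, r i = WPt.mk (b i)

theorem mk_congr {a b : Coord V k} {c : k} (hc : c ≠ 0) (h0 : b.u 0 = a.u 0)
    (h1 : b.u 1 = a.u 1) (h2 : ∀ i, b.w i = c * a.w i) : WPt.mk a = WPt.mk b := by
  refine mk_eq_iff.mpr ⟨1, c, one_ne_zero, hc, fun i => ?_, fun i => ?_⟩
  · rw [one_mul]
    fin_cases i
    · exact h0
    · exact h1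
  · rw [one_pow, one_mul]
    exact h2 i

theorem rel_unique (hm : m ≠ 0) {F : Aut V} (hd : IsPrimitiveRoot F.d m) (hc : F.c = 0)
    (he : F.e = F.d⁻¹ ^ j) {w0 : k} (hw0 : w0 ≠ 0) {r : Fin n → WPt W k}
    {q q' : Fin n → WPt V k} (hR : Rel m j w0 r q) (hR' : Rel m j w0 r q') :
    ∃ e : Fin n → ℕ, m ∣ ∑ i, e i ∧ ∀ i, q' i = (aut F)^[e i] (q i) := by
  obtain ⟨a, b, h1, h2, h3, h4, h5, h6, h7⟩ := hR
  obtain ⟨a', b', h1', h2', h3', h4', h5', h6', h7'⟩ := hR'
  have hT : ∀ i, (a i).u 1 ≠ 0 := by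
    rw [← h5, Finset.prod_ne_zero_iff] at hw0
    exact fun i => hw0 i (Finset.mem_univ i)
  have key : ∀ i, ∃ e : ℕ, F.d ^ e * (a i).u 1 = (a' i).u 1 ∧ q' i = (aut F)^[e] (q i) := by
    intro i
    have e1 : (WPt.mk (b i) : WPt W k) = WPt.mk (b' i) := by
      rw [← h7, ← h7']
    obtain ⟨l, c, hl, hc', e2, e3⟩ := mk_eq_iff.mp e1
    have e4 : (b' i).u 0 = l * (b i).u 0 := e2 0
    rw [h2, h2', mul_one] at e4
    have e5 : (b' i).u 1 = l * (b i).u 1 := e2 1
    rw [← e4, one_mul, h3, h3'] at e5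
    have e8 : ∀ s, (b' i).w s = c * (b i).w s := by
      intro s
      rw [e3 s, ← e4, one_pow, one_mul]
    have : NeZero m := ⟨hm⟩
    obtain ⟨e, -, hge⟩ := hd.eq_pow_of_pow_eq_one (ξ := (a' i).u 1 / (a i).u 1) (by
      rw [div_pow, e5, div_self (pow_ne_zero m (hT i))])
    have e7 : F.d ^ e * (a i).u 1 = (a' i).u 1 := by
      rw [hge]
      exact div_mul_cancel₀ _ (hT i)
    refine ⟨e, e7, ?_⟩
    obtain ⟨x, f1, f2, f3, f4, f5, f6⟩ := aut_iter F hc e (a i)
    rw [h6, h6', f1]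
    have hTj : (a' i).u 1 ^ j ≠ 0 := by
      apply pow_ne_zero
      rw [← e7]
      exact mul_ne_zero (pow_ne_zero _ F.hd) (hT i)
    -- the factor
    have hfac : F.e ^ e * (a' i).u 1 ^ j = (a i).u 1 ^ j := by
      rw [← e7, mul_pow, he, ← pow_mul, ← pow_mul, mul_comm j e, ← mul_assoc, inv_pow,
        inv_mul_cancel₀ (pow_ne_zero _ F.hd), one_mul]
    have g0 := e8 0
    have g1 := e8 1
    have g2 := e8 2
    rw [h4, h4'] at g0 g1 g2
    change ((a' i).u 1 ^ j) ^ 2 * (a' i).w 0 = c * (((a i).u 1 ^ j) ^ 2 * (a i).w 0) at g0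
    change ((a' i).u 1 ^ j) ^ 3 * (a' i).w 1 = c * (((a i).u 1 ^ j) ^ 3 * (a i).w 1) at g1
    change (a' i).w 2 = c * (a i).w 2 at g2
    refine (mk_congr hc' ?_ ?_ (fun s => ?_)).symm
    · rw [f2, h1, h1']
    · rw [f3]
      exact e7.symm
    · fin_cases s
      · change (a' i).w 0 = c * x.w 0
        rw [f4]
        apply mul_left_cancel₀ (pow_ne_zero 2 hTj)
        rw [g0, ← hfac]
        ring
      · change (a' i).w 1 = c * x.w 1
        rw [f5]
        apply mul_left_cancel₀ (pow_ne_zero 3 hTj)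
        rw [g1, ← hfac]
        ring
      · change (a' i).w 2 = c * x.w 2
        rw [f6, g2]
  choose e he' hq using key
  refine ⟨e, ?_, hq⟩
  rw [← hd.pow_eq_one_iff_dvd]
  have e1 : F.d ^ (∑ i, e i) * ∏ i, (a i).u 1 = ∏ i, (a' i).u 1 := by
    rw [← Finset.prod_pow_eq_pow_sum, ← Finset.prod_mul_distrib]
    exact Finset.prod_congr rfl fun i _ => he' i
  rw [h5, h5'] at e1
  apply mul_right_cancel₀ hw0
  rw [e1, one_mul]

/-- The automorphism has the order `m`. -/
theorem aut_period {F : Aut V} (hd : IsPrimitiveRoot F.d m) (hc : F.c = 0)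
    (he : F.e = F.d⁻¹ ^ j) (q : WPt V k) : (aut F)^[m] q = q := by
  obtain ⟨a, rfl⟩ := exists_mk q
  obtain ⟨x, f1, f2, f3, f4, f5, f6⟩ := aut_iter F hc m a
  have h1 : F.e ^ m = 1 := by
    rw [he, ← pow_mul, mul_comm, pow_mul, inv_pow, hd.pow_eq_one, inv_one, one_pow]
  rw [f1]
  refine (mk_congr one_ne_zero f2 ?_ (fun s => ?_)).symm
  · rw [f3, hd.pow_eq_one, one_mul]
  · rw [one_mul]
    fin_cases s
    · change x.w 0 = a.w 0
      rw [f4, h1]
      ring
    · change x.w 1 = a.w 1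
      rw [f5, h1]
      ring
    · exact f6

open Classical in
/-- The function on the power of the surface over the `u`-line: the value at any lift with product
of the coordinates `w0`, and zero if there is no such lift. -/
noncomputable def phi (m j : ℕ) (w0 : k) (Ψ : (Fin n → WPt V k) → ℂ) (r : Fin n → WPt W k) : ℂ :=
  if h : ∃ q : Fin n → WPt V k, Rel m j w0 r q then Ψ h.choose else 0

theorem eig_dvd {r : WPt V k → WPt V k} (hr : ∀ q, r^[m] q = q)
    {Ψ : (Fin n → WPt V k) → ℂ} {χ : ℂ}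
    (hs : ∀ (q : Fin n → WPt V k) (i : Fin n), Ψ (update q i (r (q i))) = χ * Ψ q)
    {e : Fin n → ℕ} (he : m ∣ ∑ i, e i) (q : Fin n → WPt V k) :
    Ψ (fun i => r^[e i] (q i)) = Ψ q := by
  rw [eig_iter hs]
  rcases Nat.eq_zero_or_pos n with hn | hn
  · subst hn
    simp
  · obtain ⟨t, ht⟩ := he
    have h1 : ∀ q, χ ^ m * Ψ q = Ψ q := by
      intro q
      rw [← eig_one hs m q ⟨0, hn⟩, hr, update_eq_self]
    rw [ht, pow_mul]
    clear ht
    induction t with
    | zero => rw [pow_zero, one_mul]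
    | succ t ih => rw [pow_succ, mul_assoc, h1, ih]

theorem phi_eq (hm : m ≠ 0) {F : Aut V} (hd : IsPrimitiveRoot F.d m) (hc : F.c = 0)
    (he : F.e = F.d⁻¹ ^ j) {w0 : k} (hw0 : w0 ≠ 0) {Ψ : (Fin n → WPt V k) → ℂ} {χ : ℂ}
    (hs : ∀ (q : Fin n → WPt V k) (i : Fin n), Ψ (update q i (aut F (q i))) = χ * Ψ q)
    {r : Fin n → WPt W k} {q : Fin n → WPt V k} (hR : Rel m j w0 r q) :
    phi m j w0 Ψ r = Ψ q := by
  have hex : ∃ q : Fin n → WPt V k, Rel m j w0 r q := ⟨q, hR⟩
  unfold phi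
  rw [dif_pos hex]
  obtain ⟨e, he', hq⟩ := rel_unique hm hd hc he hw0 hR hex.choose_spec
  have h1 : hex.choose = fun i => (aut F)^[e i] (q i) := funext hq
  rw [h1]
  exact eig_dvd (aut_period hd hc he) hs he' q

theorem phi_zero {w0 : k} {Ψ : (Fin n → WPt V k) → ℂ} {r : Fin n → WPt W k}
    (h : ¬ ∃ q : Fin n → WPt V k, Rel m j w0 r q) : phi m j w0 Ψ r = 0 := by
  unfold phi
  rw [dif_neg h]

theorem rel_neg {w0 : k} {r : Fin n → WPt W k} {q : Fin n → WPt V k}
    (h : Rel m j w0 r q) (i : Fin n) :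
    Rel m j w0 (update r i (neg (r i))) (update q i (neg (q i))) := by
  obtain ⟨a, b, h1, h2, h3, h4, h5, h6, h7⟩ := h
  have e1 : ∀ s, (update a i (negC (a i)) s).u = (a s).u := by
    intro s
    by_cases hj : s = i
    · subst hj
      rw [update_self]
      rfl
    · rw [update_of_ne hj]
  have e2 : ∀ s, (update b i (negC (b i)) s).u = (b s).u := by
    intro s
    by_cases hj : s = i
    · subst hj
      rw [update_self]
      rfl
    · rw [update_of_ne hj]
  refine ⟨update a i (negC (a i)), update b i (negC (b i)), fun s => ?_, fun s => ?_, fun s => ?_,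
    fun s => ?_, ?_, fun s => ?_, fun s => ?_⟩
  · rw [e1]
    exact h1 s
  · rw [e2]
    exact h2 s
  · rw [e1, e2]
    exact h3 s
  · rw [e1]
    by_cases hj : s = i
    · subst hj
      rw [update_self, update_self]
      have h8 := h4 s
      funext l
      change ![(b s).w 0, -(b s).w 1, (b s).w 2] l = ![((a s).u 1 ^ j) ^ 2 * (a s).w 0,
        ((a s).u 1 ^ j) ^ 3 * (-(a s).w 1), (a s).w 2] l
      rw [h8]
      fin_cases l
      · rfl
      · change -(((a s).u 1 ^ j) ^ 3 * (a s).w 1) = ((a s).u 1 ^ j) ^ 3 * (-(a s).w 1)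
        ring
      · rfl
    · rw [update_of_ne hj, update_of_ne hj, h4]
  · simp only [e1]
    exact h5
  · by_cases hj : s = i
    · subst hj
      rw [update_self, update_self, h6, neg_mk]
    · rw [update_of_ne hj, update_of_ne hj, h6]
  · by_cases hj : s = i
    · subst hj
      rw [update_self, update_self, h7, neg_mk]
    · rw [update_of_ne hj, update_of_ne hj, h7]

theorem rel_swap {w0 : k} {r : Fin n → WPt W k} {q : Fin n → WPt V k}
    (h : Rel m j w0 r q) (σ : Equiv.Perm (Fin n)) :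
    Rel m j w0 (fun l => r (σ l)) (fun l => q (σ l)) := by
  obtain ⟨a, b, h1, h2, h3, h4, h5, h6, h7⟩ := h
  refine ⟨fun l => a (σ l), fun l => b (σ l), fun s => h1 _, fun s => h2 _, fun s => h3 _,
    fun s => h4 _, ?_, fun s => h6 _, fun s => h7 _⟩
  rw [← h5]
  exact Equiv.prod_comp σ (fun l => (a l).u 1)

end CX.CHE
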