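import Mathlib
import Pool.Agent.Helper98.CHC.Min
import Pool.Agent.Helper83.CHI.Cor
import Pool.Agent.Helper40.CX.H83EW.Red
import Pool.Agent.Helper9.CHI.Mini

namespace CX

/-!
# Project CHI: the standard coordinates

`IsSt D`: the coordinate `T` on the projective line is `u1 / u0`. For `D : Cor W` and
`D' : Cor V` with this property and `IsMul W V m j`, `w ^ (4 j) D'.a w = D.a (w ^ m)`.
-/

set_option autoImplicit false
set_option linter.unusedSectionVars false

namespace CHE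

open _root_.CX.VC _root_.CX.VF Function
open _root_.CX.Pool.Agent.Helper51.EW
open CX.CHC (IsMul)
open CX.Pool.Agent.Helper83.CHI (Cor)
open _root_.Pool.Agent.Helper9.CHI (stdBas deh_std)
open _root_.CX.Pool.Agent.Helper51.VN (OnE)

universe u

/-- The coordinate is `u1 / u0`. -/
structure IsSt {k : Type u} [Field k] {W : Wei k} (D : Cor W) : Prop where
  e0 : D.e0 = ![1, 0]
  e1 : D.e1 = ![0, 1]

section

variable {k : Type u} [Field k] [Good k] {W V : Wei k} {D : Cor W} {p : ℕ}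
  {D' : Cor V} {K : Type u} [Field K] [Algebra k K]

lemma IsSt.base (h : IsSt D) (T : K) : D.base T = ![1, T] := by
  funext i
  unfold Cor.base
  rw [h.e0, h.e1]
  fin_cases i
  · change algebraMap k K 1 + T * algebraMap k K 0 = 1
    rw [map_zero, map_one, mul_zero, add_zero]
  · change algebraMap k K 0 + T * algebraMap k K 1 = T
    rw [map_zero, map_one, mul_one, zero_add]

theorem isMul_A {m j : ℕ} (h : IsMul W V m j) (T : K) :
    T ^ (4 * j) * MvPolynomial.aeval (![1, T] : Fin 2 → K) V.A =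
      MvPolynomial.aeval (![1, T ^ m] : Fin 2 → K) W.A := by
  have h1 := congrArg (Polynomial.aeval T) h.A
  rw [map_mul, map_pow, CHC.aeval_poly, CHC.aeval_poly, Polynomial.aeval_X, map_pow,
    Polynomial.aeval_X] at h1
  exact h1

theorem isMul_B {m j : ℕ} (h : IsMul W V m j) (T : K) :
    T ^ (6 * j) * MvPolynomial.aeval (![1, T] : Fin 2 → K) V.B =
      MvPolynomial.aeval (![1, T ^ m] : Fin 2 → K) W.B := by
  have h1 := congrArg (Polynomial.aeval T) h.B
  rw [map_mul, map_pow, CHC.aeval_poly, CHC.aeval_poly, Polynomial.aeval_X, map_pow,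
    Polynomial.aeval_X] at h1
  exact h1

lemma std_a {m j : ℕ} (hV : IsMul W V m j) (h : IsSt D) (h' : IsSt D') (w : K) :
    w ^ (4 * j) * D'.a w = D.a (w ^ m) := by
  have hK : CX.Good K := CX.Good.ext k
  have e1 := D'.hA K w
  have e2 := D.hA K (w ^ m)
  have b1 := h'.base w
  have b2 := h.base (w ^ m)
  unfold Cor.base at b1 b2
  rw [b1] at e1
  rw [b2, ← isMul_A hV, e1] at e2
  have h3 : (-3 : K) ≠ 0 := neg_ne_zero.mpr Good.three
  apply mul_left_cancel₀ h3
  change -3 * (w ^ (4 * j) * Polynomial.aeval w D'.al) = -3 * Polynomial.aeval (w ^ m) D.al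
  rw [← e2]
  ring

lemma std_b {m j : ℕ} (hV : IsMul W V m j) (h : IsSt D) (h' : IsSt D') (w : K) :
    w ^ (6 * j) * D'.b w = D.b (w ^ m) := by
  have hK : CX.Good K := CX.Good.ext k
  have e1 := D'.hB K w
  have e2 := D.hB K (w ^ m)
  have b1 := h'.base w
  have b2 := h.base (w ^ m)
  unfold Cor.base at b1 b2
  rw [b1] at e1
  rw [b2, ← isMul_B hV, e1] at e2
  have h3 : (-2 : K) ≠ 0 := neg_ne_zero.mpr Good.two
  apply mul_left_cancel₀ h3
  change -2 * (w ^ (6 * j) * Polynomial.aeval w D'.be) = -2 * Polynomial.aeval (w ^ m) D.be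
  rw [← e2]
  ring

lemma std_d {m j : ℕ} (hV : IsMul W V m j) (h : IsSt D) (h' : IsSt D') (w : K) :
    w ^ (12 * j) * D'.d w = D.d (w ^ m) := by
  unfold Cor.d
  rw [← std_a hV h h', ← std_b hV h h']
  ring

/-- The point of the fibre of `W` given by a point of the fibre of `V`. -/
theorem onE_std {m j : ℕ} (hV : IsMul W V m j) (h : IsSt D) (h' : IsSt D') {T x y : K}
    (hE : OnE (D'.a T) (D'.b T) x y) :
    OnE (D.a (T ^ m)) (D.b (T ^ m)) ((T ^ j) ^ 2 * x) ((T ^ j) ^ 3 * y) := by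
  unfold OnE at hE ⊢
  rw [← std_a hV h h', ← std_b hV h h', mul_pow, hE]
  ring

/-- The point of the fibre of `V` given by a point of the fibre of `W`. -/
theorem onE_std' {m j : ℕ} (hV : IsMul W V m j) (h : IsSt D) (h' : IsSt D') {T x y : K}
    (hT : T ≠ 0) (hE : OnE (D.a (T ^ m)) (D.b (T ^ m)) x y) :
    OnE (D'.a T) (D'.b T) ((T ^ j)⁻¹ ^ 2 * x) ((T ^ j)⁻¹ ^ 3 * y) := by
  have hj : T ^ j ≠ 0 := pow_ne_zero _ hT
  have h1 : (T ^ j)⁻¹ * T ^ j = 1 := inv_mul_cancel₀ hj
  unfold OnE at hE ⊢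
  rw [← std_a hV h h', ← std_b hV h h'] at hE
  obtain ⟨s, hs⟩ : ∃ s, s = T ^ j := ⟨_, rfl⟩
  obtain ⟨r, hr⟩ : ∃ r, r = (T ^ j)⁻¹ := ⟨_, rfl⟩
  have h4 : T ^ (4 * j) = s ^ 4 := by rw [hs, ← pow_mul, mul_comm]
  have h6 : T ^ (6 * j) = s ^ 6 := by rw [hs, ← pow_mul, mul_comm]
  rw [h4, h6] at hE
  rw [← hr, ← hs] at h1
  rw [← hr]
  have h4' : r ^ 4 * s ^ 4 = 1 := by rw [← mul_pow, h1, one_pow]
  have h6' : r ^ 6 * s ^ 6 = 1 := by rw [← mul_pow, h1, one_pow]
  linear_combination r ^ 6 * hE - 3 * D'.a T * r ^ 2 * x * h4' - 2 * D'.b T * h6'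

end

section

variable {k : Type u} [Field k] [IsAlgClosed k] [Good k]

theorem exists_st (W : Wei k) (hΔ : 4 * W.A ^ 3 + 27 * W.B ^ 2 ≠ 0) :
    ∃ D : Cor W, IsSt D := by
  have hA := W.hA
  have hB := W.hB
  have hΔh : (4 * W.A ^ 3 + 27 * W.B ^ 2).IsHomogeneous (12 * W.N) := by
    have h4 : (4 : MvPolynomial (Fin 2) k) = MvPolynomial.C 4 := (map_ofNat MvPolynomial.C 4).symm
    have h27 : (27 : MvPolynomial (Fin 2) k) = MvPolynomial.C 27 :=
      (map_ofNat MvPolynomial.C 27).symm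
    rw [h4, h27]
    have e1 := (MvPolynomial.isHomogeneous_C (Fin 2) (4 : k)).mul (hA.pow 3)
    have e2 := (MvPolynomial.isHomogeneous_C (Fin 2) (27 : k)).mul (hB.pow 2)
    rw [show 0 + 4 * W.N * 3 = 12 * W.N by ring] at e1
    rw [show 0 + 6 * W.N * 2 = 12 * W.N by ring] at e2
    exact e1.add e2
  set E := stdBas k
  have hf0 : Pool.Agent.Helper83.EW.deh E (4 * W.A ^ 3 + 27 * W.B ^ 2) ≠ 0 :=
    Pool.Agent.Helper83.EW.deh_ne_zero E hΔh hΔ
  have hc : (1 / 108 : k) ≠ 0 := by norm_num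
  have haev : ∀ (F : MvPolynomial (Fin 2) k) {K : Type u} [Field K] [Algebra k K] (T : K),
      Polynomial.aeval T (Pool.Agent.Helper83.EW.deh E F) = MvPolynomial.aeval (fun i =>
      algebraMap k K ((![1, 0] : Fin 2 → k) i) + T * algebraMap k K ((![0, 1] : Fin 2 → k) i))
      F := by
    intro F K _ _ T
    rw [Pool.Agent.Helper83.EW.aeval_deh]
    rfl
  refine ⟨{ e0 := ![1, 0], e1 := ![0, 1], det := ?_,
            al := Polynomial.C (-1 / 3) * Pool.Agent.Helper83.EW.deh E W.A,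
            be := Polynomial.C (-1 / 2) * Pool.Agent.Helper83.EW.deh E W.B, hA := ?_, hB := ?_,
            hD := ?_, dal := ?_, dbe := ?_ }, ⟨rfl, rfl⟩⟩
  · change (1 : k) * 1 - 0 * 0 ≠ 0
    norm_num
  · intro K _ _ T
    rw [map_mul, Polynomial.aeval_C, haev]
    have : (-3 : K) * algebraMap k K (-1 / 3) = 1 := by
      have h6 : (-3 : K) = algebraMap k K (-3) := by rw [map_neg, map_ofNat]
      have h7 : (-3 : k) * (-1 / 3) = 1 := by
        field_simp
      rw [h6, ← map_mul, h7, map_one]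
    rw [← mul_assoc, this, one_mul]
  · intro K _ _ T
    rw [map_mul, Polynomial.aeval_C, haev]
    have : (-2 : K) * algebraMap k K (-1 / 2) = 1 := by
      have h6 : (-2 : K) = algebraMap k K (-2) := by rw [map_neg, map_ofNat]
      have h7 : (-2 : k) * (-1 / 2) = 1 := by
        field_simp
      rw [h6, ← map_mul, h7, map_one]
    rw [← mul_assoc, this, one_mul]
  · have e1 : Pool.Agent.Helper83.EW.deh E (4 * W.A ^ 3 + 27 * W.B ^ 2) =
        4 * Pool.Agent.Helper83.EW.deh E W.A ^ 3 + 27 * Pool.Agent.Helper83.EW.deh E W.B ^ 2 := by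
      unfold Pool.Agent.Helper83.EW.deh
      simp only [map_add, map_mul, map_pow, map_ofNat]
    have e4 : (4 : Polynomial k) = Polynomial.C 4 := (map_ofNat Polynomial.C 4).symm
    have e27 : (27 : Polynomial k) = Polynomial.C 27 := (map_ofNat Polynomial.C 27).symm
    have e7 : (Polynomial.C (-1 / 2) * Pool.Agent.Helper83.EW.deh E W.B) ^ 2 -
        (Polynomial.C (-1 / 3) * Pool.Agent.Helper83.EW.deh E W.A) ^ 3 =
          Polynomial.C (1 / 108) *
          Pool.Agent.Helper83.EW.deh E (4 * W.A ^ 3 + 27 * W.B ^ 2) := by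
      rw [e1, e4, e27, mul_pow, mul_pow, ← Polynomial.C_pow, ← Polynomial.C_pow, mul_add,
        ← mul_assoc, ← mul_assoc, ← Polynomial.C_mul, ← Polynomial.C_mul]
      have hn2 : (2 : k) ≠ 0 := Good.two
      have hn3 : (3 : k) ≠ 0 := Good.three
      have h108 : (108 : k) = 2 ^ 2 * 3 ^ 3 := by norm_num
      have e5 : (-1 / 2 : k) ^ 2 = 1 / 108 * 27 := by
        rw [h108]
        field_simp
        norm_num
      have e6 : (-1 / 3 : k) ^ 3 = -(1 / 108 * 4) := by
        rw [h108]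
        field_simp
        norm_num
      rw [e5, e6, Polynomial.C_neg]
      ring
    rw [e7]
    exact mul_ne_zero (Polynomial.C_ne_zero.mpr hc) hf0
  · exact (Polynomial.natDegree_C_mul_le _ _).trans
      (Pool.Agent.Helper83.EW.natDegree_deh_le E hA)
  · exact (Polynomial.natDegree_C_mul_le _ _).trans
      (Pool.Agent.Helper83.EW.natDegree_deh_le E hB)

end

end CHE

end CX
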