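import Mathlib
import Pool.Agent.Helper98.CHE.Down
import Pool.Agent.Helper98.CHE.Std
import Pool.Agent.Helper98.CHI.Phi2

/-!
# CHE: the function over the `u`-line, any model of the multiplicative base change

The value of `phi` at the value of a curve on which the product of the coordinates of the base is
constant. The function `Ψ` is assumed to be zero if a component is over `0`, or if a component is
over `∞`.
-/

set_option autoImplicit false
set_option linter.unusedSectionVars false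

namespace CX.CHE

open CX.VC CX.VF Function
open CX.CHC CX.CHV
open CX.Pool.Agent.Helper51.EW CX.Pool.Agent.Helper51.VN
open CX.Pool.Agent.Helper83.CHI (Cor OddC Prc)
open CX.CHI (cor_base_ne cor_base_eqn pt_mk)

universe u

section std

variable {k : Type u} [Field k] [Good k] {W V : Wei k} {m j : ℕ} {K : Type u} [Field K]
  [Algebra k K]

/-- The projection of the part over the multiplicative group. -/
def down (hV : IsMul W V m j) (a : Coord V K) (ha : a.u 0 = 1) (ha1 : a.u 1 ≠ 0) : Coord W K where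
  u := ![1, a.u 1 ^ m]
  w := ![(a.u 1 ^ j) ^ 2 * a.w 0, (a.u 1 ^ j) ^ 3 * a.w 1, a.w 2]
  u_ne := by
    intro h
    exact one_ne_zero (α := K) (congrFun h 0)
  w_ne := by
    intro h
    have h0 : (a.u 1 ^ j) ^ 2 * a.w 0 = 0 := congrFun h 0
    have h1 : (a.u 1 ^ j) ^ 3 * a.w 1 = 0 := congrFun h 1
    have h2 : a.w 2 = 0 := congrFun h 2
    have hj : a.u 1 ^ j ≠ 0 := pow_ne_zero _ ha1
    apply a.w_ne
    funext i
    fin_cases i
    · exact (mul_eq_zero.mp h0).resolve_left (pow_ne_zero _ hj)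
    · exact (mul_eq_zero.mp h1).resolve_left (pow_ne_zero _ hj)
    · exact h2
  eqn := by
    have h := a.eqn
    have e : a.u = ![1, a.u 1] := by
      funext i
      fin_cases i
      · exact ha
      · rfl
    rw [e] at h
    change ((a.u 1 ^ j) ^ 3 * a.w 1) ^ 2 * a.w 2 = ((a.u 1 ^ j) ^ 2 * a.w 0) ^ 3 +
      MvPolynomial.aeval (![1, a.u 1 ^ m] : Fin 2 → K) W.A * ((a.u 1 ^ j) ^ 2 * a.w 0) *
        a.w 2 ^ 2 +
      MvPolynomial.aeval (![1, a.u 1 ^ m] : Fin 2 → K) W.B * a.w 2 ^ 3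
    rw [← isMul_A hV, ← isMul_B hV]
    have h4 : a.u 1 ^ (4 * j) = (a.u 1 ^ j) ^ 4 := by rw [← pow_mul, mul_comm]
    have h6 : a.u 1 ^ (6 * j) = (a.u 1 ^ j) ^ 6 := by rw [← pow_mul, mul_comm]
    rw [h4, h6]
    linear_combination (a.u 1 ^ j) ^ 6 * h

/-- Normalised coordinates. -/
theorem norm_coord {v : Coord V K} (h : v.u 0 ≠ 0) :
    (scale v (v.u 0)⁻¹ 1 (inv_ne_zero h) one_ne_zero).u 0 = 1 := by
  change (v.u 0)⁻¹ * v.u 0 = 1
  exact inv_mul_cancel₀ h

end std

section main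

variable {k : Type u} [Field k] [IsAlgClosed k] [Good k] {W V : Wei k} {m j n : ℕ}

/-- The function is zero if a component is over `0`. -/
def Null0 (Ψ : (Fin n → WPt V k) → ℂ) : Prop :=
  ∀ (q : Fin n → WPt V k) (i : Fin n) (a : Coord V k), q i = WPt.mk a → a.u 1 = 0 → Ψ q = 0

/-- The function is zero if a component is over infinity. -/
def NullInf (Ψ : (Fin n → WPt V k) → ℂ) : Prop :=
  ∀ (q : Fin n → WPt V k) (i : Fin n) (a : Coord V k), q i = WPt.mk a → a.u 0 = 0 → Ψ q = 0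

/-- A tuple with a lift has no component over infinity. -/
theorem rel_ne {w0 : k} {r : Fin n → WPt W k} {q : Fin n → WPt V k} (h : Rel m j w0 r q)
    {i : Fin n} {a : Coord W k} (ha : r i = WPt.mk a) : a.u 0 ≠ 0 := by
  obtain ⟨a', b, h1, h2, h3, h4, h5, h6, h7⟩ := h
  have e1 : (WPt.mk a : WPt W k) = WPt.mk (b i) := by
    rw [← ha, h7]
  obtain ⟨l, c, hl, hc, e2, e3⟩ := mk_eq_iff.mp e1
  have f1 : (b i).u 0 = l * a.u 0 := e2 0
  intro h0
  rw [h0, mul_zero, h2] at f1
  exact one_ne_zero f1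

/-- The coordinates of the value of an affine point at a place. -/
theorem val_coords {K : Type u} [Field K] [Algebra k K] (hK : IsFunctionField k K)
    {D : Cor V} (hD : IsSt D) {T x y : K} (h : OnE (D.a T) (D.b T) x y)
    (v : Place k K) : ∃ (a : Coord V K) (b : Coord V k),
      D.pt T x y = WPt.mk a ∧ V.surface.eval hK (D.pt T x y) v = WPt.mk b ∧
      (∀ i, IsRes v (a.u i) (b.u i)) ∧ (∀ i, IsRes v (a.w i) (b.w i)) ∧
      a.u 1 = T * a.u 0 ∧ a.u 0 ≠ 0 := by
  obtain ⟨a, b, h1, h2, h3, h4⟩ := exists_coords hK v (D.pt T x y)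
  refine ⟨a, b, h1, h2, h3, h4, ?_⟩
  rw [pt_mk D h] at h1
  obtain ⟨l, c, hl, hc, e1, e2⟩ := mk_eq_iff.mp h1
  have f0 : a.u 0 = l * D.base T 0 := e1 0
  have f1 : a.u 1 = l * D.base T 1 := e1 1
  rw [hD.base] at f0 f1
  change a.u 0 = l * 1 at f0
  change a.u 1 = l * T at f1
  rw [f0, f1, mul_one]
  exact ⟨mul_comm _ _, hl⟩

/-- The value of the projection of an affine point, over the multiplicative group. -/
theorem val_down (hV : IsMul W V m j) {K : Type u} [Field K] [Algebra k K]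
    (hK : IsFunctionField k K) {D : Cor W} (hD : IsSt D) {D' : Cor V} (hD' : IsSt D') {T x y : K}
    (h : OnE (D'.a T) (D'.b T) x y) (v : Place k K) {a : Coord V K} {b : Coord V k}
    (h1 : D'.pt T x y = WPt.mk a) (h3 : ∀ i, IsRes v (a.u i) (b.u i))
    (h4 : ∀ i, IsRes v (a.w i) (b.w i)) (h5 : a.u 1 = T * a.u 0) (ha : a.u 0 = 1)
    (hb : b.u 0 = 1) (hb1 : b.u 1 ≠ 0) :
    W.surface.eval hK (D.pt (T ^ m) ((T ^ j) ^ 2 * x) ((T ^ j) ^ 3 * y)) v =
      WPt.mk (down hV b hb hb1) := by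
  rw [ha, mul_one] at h5
  have hT : T ≠ 0 := by
    rw [← h5]
    exact (h3 1).ne_zero hb1
  have ha1 : a.u 1 ≠ 0 := by rw [h5]; exact hT
  have e1 : D.pt (T ^ m) ((T ^ j) ^ 2 * x) ((T ^ j) ^ 3 * y) = WPt.mk (down hV a ha ha1) := by
    rw [pt_mk D' h] at h1
    rw [pt_mk D (onE_std hV hD hD' h)]
    obtain ⟨l, c, hl, hc, e1, e2⟩ := mk_eq_iff.mp h1
    have f0 : a.u 0 = l * D'.base T 0 := e1 0
    rw [hD'.base] at f0
    change a.u 0 = l * 1 at f0
    rw [ha, mul_one] at f0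
    have e3 : ∀ i, a.w i = c * (affC (D'.base T) x y (cor_base_ne D' T)
        (cor_base_eqn D' h)).w i := by
      intro i
      rw [e2 i, ← f0, one_pow, one_mul]
    have g0 : a.w 0 = c * x := e3 0
    have g1 : a.w 1 = c * y := e3 1
    have g2 : a.w 2 = c * 1 := e3 2
    refine mk_eq_iff.mpr ⟨1, c, one_ne_zero, hc, fun i => ?_, fun i => ?_⟩
    · rw [one_mul]
      change ![1, a.u 1 ^ m] i = D.base (T ^ m) i
      rw [hD.base, h5]
    · rw [one_pow, one_mul]
      fin_cases i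
      · change (a.u 1 ^ j) ^ 2 * a.w 0 = c * ((T ^ j) ^ 2 * x)
        rw [g0, h5]
        ring
      · change (a.u 1 ^ j) ^ 3 * a.w 1 = c * ((T ^ j) ^ 3 * y)
        rw [g1, h5]
        ring
      · exact g2
  have h6 : ∀ i, IsRes v ((down hV a ha ha1).u i) ((down hV b hb hb1).u i) := by
    intro i
    fin_cases i
    · change IsRes v (1 : K) (1 : k)
      have := isRes_const (v := v) (1 : k)
      rwa [map_one] at this
    · exact (h3 1).pow m
  have h7 : ∀ i, IsRes v ((down hV a ha ha1).w i) ((down hV b hb hb1).w i) := by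
    intro i
    fin_cases i
    · exact (((h3 1).pow j).pow 2).mul (h4 0)
    · exact (((h3 1).pow j).pow 3).mul (h4 1)
    · exact h4 2
  rw [e1, eval_eq hK v (down hV a ha ha1) (down hV b hb hb1) h6 h7]

/-- The residue of a product. -/
theorem isRes_prod {K : Type u} [Field K] [Algebra k K] {v : Place k K} {ι : Type*}
    (s : Finset ι) {x : ι → K} {c : ι → k} (h : ∀ i ∈ s, IsRes v (x i) (c i)) :
    IsRes v (∏ i ∈ s, x i) (∏ i ∈ s, c i) := by
  classical
  induction s using Finset.induction_on with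
  | empty => exact isRes_one
  | insert i s hi ih =>
    rw [Finset.prod_insert hi, Finset.prod_insert hi]
    exact (h i (Finset.mem_insert_self _ _)).mul
      (ih fun l hl => h l (Finset.mem_insert_of_mem hl))

/-- The value of `phi` at the value of a curve. -/
theorem phi_val (hm : m ≠ 0) (hV : IsMul W V m j) {F : Aut V} (hd : IsPrimitiveRoot F.d m)
    (hc : F.c = 0) (he : F.e = F.d⁻¹ ^ j) {D : Cor W}
    (hD : IsSt D) {D' : Cor V} (hD' : IsSt D') {Ψ : (Fin n → WPt V k) → ℂ} {χ : ℂ}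
    (hnull : Null0 Ψ ∨ NullInf Ψ)
    (hs : ∀ (q : Fin n → WPt V k) (i : Fin n), Ψ (update q i (aut F (q i))) = χ * Ψ q) {w0 : k}
    (hw0 : w0 ≠ 0)
    {K : Type u} [Field K] [Algebra k K] (hK : IsFunctionField k K) {T x y : Fin n → K}
    (hE : ∀ i, OnE (D'.a (T i)) (D'.b (T i)) (x i) (y i)) (hT : ∏ i, T i = algebraMap k K w0)
    (v : Place k K) :
    phi m j w0 Ψ (fun i => W.surface.eval hK
      (D.pt (T i ^ m) ((T i ^ j) ^ 2 * x i) ((T i ^ j) ^ 3 * y i)) v) =
      Ψ (fun i => V.surface.eval hK (D'.pt (T i) (x i) (y i)) v) := by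
  have hT0 : ∀ i, T i ≠ 0 := by
    have h0 : ∏ i, T i ≠ 0 := by
      rw [hT, Ne, _root_.map_eq_zero]
      exact hw0
    rw [Finset.prod_ne_zero_iff] at h0
    exact fun i => h0 i (Finset.mem_univ i)
  choose a b h1 h2 h3 h4 h5 h6 using fun i => val_coords hK hD' (hE i) v
  have hres : ∀ i, (b i).u 0 ≠ 0 → IsRes v (T i) ((b i).u 1 * ((b i).u 0)⁻¹) := by
    intro i hi
    have e1 := (h3 i 1).mul ((h3 i 0).inv hK hi)
    rwa [h5, mul_assoc, mul_inv_cancel₀ (h6 i), mul_one] at e1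
  have hres' : ∀ i, (b i).u 1 ≠ 0 → IsRes v (T i)⁻¹ ((b i).u 0 * ((b i).u 1)⁻¹) := by
    intro i hi
    have e1 := (h3 i 0).mul ((h3 i 1).inv hK hi)
    have e2 : (a i).u 0 * ((a i).u 1)⁻¹ = (T i)⁻¹ := by
      rw [h5, mul_inv, mul_comm ((T i)⁻¹) _, ← mul_assoc, mul_inv_cancel₀ (h6 i), one_mul]
    rwa [e2] at e1
  by_cases hgood : ∀ i, (b i).u 0 ≠ 0
  · -- all the components are affine, hence over the multiplicative group
    have hprod : ∏ i, (b i).u 1 * ((b i).u 0)⁻¹ = w0 := by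
      have e1 := isRes_prod (v := v) Finset.univ (fun i _ => hres i (hgood i))
      rw [hT] at e1
      exact ((isRes_const (v := v) w0).unique e1).symm
    have hgood1 : ∀ i, (b i).u 1 ≠ 0 := by
      intro i h0
      apply hw0
      rw [← hprod]
      exact Finset.prod_eq_zero (Finset.mem_univ i) (by rw [h0, zero_mul])
    have h7 : ∀ i, IsRes v ((a i).u 0)⁻¹ ((b i).u 0)⁻¹ := fun i => (h3 i 0).inv hK (hgood i)
    obtain ⟨a', ha'⟩ : ∃ a' : Fin n → Coord V K, a' = fun i =>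
      scale (a i) ((a i).u 0)⁻¹ 1 (inv_ne_zero (h6 i)) one_ne_zero := ⟨_, rfl⟩
    obtain ⟨b', hb'⟩ : ∃ b' : Fin n → Coord V k, b' = fun i =>
      scale (b i) ((b i).u 0)⁻¹ 1 (inv_ne_zero (hgood i)) one_ne_zero := ⟨_, rfl⟩
    have ha0 : ∀ i, (a' i).u 0 = 1 := fun i => by rw [ha']; exact norm_coord (h6 i)
    have hb0 : ∀ i, (b' i).u 0 = 1 := fun i => by rw [hb']; exact norm_coord (hgood i)
    have hb1 : ∀ i, (b' i).u 1 = (b i).u 1 * ((b i).u 0)⁻¹ := by
      intro i
      rw [hb']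
      change ((b i).u 0)⁻¹ * (b i).u 1 = _
      rw [mul_comm]
    have hb1n : ∀ i, (b' i).u 1 ≠ 0 := by
      intro i
      rw [hb1]
      exact mul_ne_zero (hgood1 i) (inv_ne_zero (hgood i))
    have g1 : ∀ i, D'.pt (T i) (x i) (y i) = WPt.mk (a' i) := by
      intro i
      rw [h1, ha']
      exact (same_scale (a i) _ 1 (inv_ne_zero (h6 i)) one_ne_zero).symm
    have g2 : ∀ i, V.surface.eval hK (D'.pt (T i) (x i) (y i)) v = WPt.mk (b' i) := by
      intro i
      rw [h2, hb']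
      exact (same_scale (b i) _ 1 (inv_ne_zero (hgood i)) one_ne_zero).symm
    have g3 : ∀ i s, IsRes v ((a' i).u s) ((b' i).u s) := by
      intro i s
      rw [ha', hb']
      exact (h7 i).mul (h3 i s)
    have g4 : ∀ i s, IsRes v ((a' i).w s) ((b' i).w s) := by
      intro i s
      rw [ha', hb']
      change IsRes v (((a i).u 0)⁻¹ ^ wt V.N s * 1 * (a i).w s)
        (((b i).u 0)⁻¹ ^ wt V.N s * 1 * (b i).w s)
      rw [mul_one, mul_one]
      exact ((h7 i).pow _).mul (h4 i s)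
    have g5 : ∀ i, (a' i).u 1 = T i * (a' i).u 0 := by
      intro i
      rw [ha0, ha', mul_one]
      change ((a i).u 0)⁻¹ * (a i).u 1 = T i
      rw [h5, mul_comm, mul_assoc, mul_inv_cancel₀ (h6 i), mul_one]
    apply phi_eq hm hd hc he hw0 hs
    refine ⟨b', fun i => down hV (b' i) (hb0 i) (hb1n i), hb0, fun i => rfl, fun i => rfl,
      fun i => rfl, ?_, g2, fun i => val_down hV hK hD hD' (hE i) v (g1 i) (g3 i) (g4 i) (g5 i)
        (ha0 i) (hb0 i) (hb1n i)⟩
    rw [← hprod]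
    exact Finset.prod_congr rfl fun i _ => hb1 i
  · push Not at hgood
    obtain ⟨i, hi⟩ := hgood
    -- there is also a component over `0`
    have hex : ∃ i', (b i').u 1 = 0 := by
      by_contra hcon
      push Not at hcon
      have e1 := isRes_prod (v := v) Finset.univ (fun i _ => hres' i (hcon i))
      have e2 : ∏ i, (T i)⁻¹ = algebraMap k K w0⁻¹ := by
        rw [Finset.prod_inv_distrib, hT, map_inv₀]
      rw [e2] at e1
      have e3 := (isRes_const (v := v) w0⁻¹).unique e1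
      have e4 : ∏ i, (b i).u 0 * ((b i).u 1)⁻¹ = 0 :=
        Finset.prod_eq_zero (Finset.mem_univ i) (by rw [hi, zero_mul])
      rw [e4] at e3
      exact inv_ne_zero hw0 e3
    obtain ⟨i', hi'⟩ := hex
    have hΨ : Ψ (fun i => V.surface.eval hK (D'.pt (T i) (x i) (y i)) v) = 0 := by
      rcases hnull with hn | hn
      · exact hn _ i' (b i') (h2 i') hi'
      · exact hn _ i (b i) (h2 i) hi
    rw [hΨ]
    apply phi_zero
    rintro ⟨q, hq⟩
    obtain ⟨a', b', f1, f2, f3, f4, f5, f6⟩ :=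
      val_coords hK hD (onE_std hV hD hD' (hE i)) v
    apply rel_ne hq (i := i) (a := b') f2
    by_contra hb0
    have e1 : IsRes v ((a').u 0)⁻¹ (b'.u 0)⁻¹ := (f3 0).inv hK hb0
    have e2 : IsRes v (T i ^ m) (b'.u 1 * (b'.u 0)⁻¹) := by
      have e3 := (f3 1).mul e1
      rw [f5, mul_assoc, mul_inv_cancel₀ f6, mul_one] at e3
      exact e3
    obtain ⟨τ, hτ, -⟩ := exists_res_of_pow hK hm e2
    have e4 : IsRes v ((a i).u 1) (τ * (b i).u 0) := by
      rw [h5]
      exact hτ.mul (h3 i 0)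
    rw [hi, mul_zero] at e4
    apply (b i).u_ne
    funext s
    fin_cases s
    · exact hi
    · exact (h3 i 1).unique e4

end main

end CX.CHE
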