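import Mathlib
import Pool.Agent.Helper98.CHE.Phi

/-!
# CHE: the function over the `u`-line (final theorem), any model of the multiplicative base change
-/

set_option autoImplicit false
set_option linter.unusedSectionVars false

namespace CX.CHE

open CX.VC CX.VF Function
open CX.CHC CX.CHV
open CX.Pool.Agent.Helper51.EW CX.Pool.Agent.Helper51.VN
open CX.Pool.Agent.Helper83.CHI (Cor OddC Prc)
open CX.CHI (cor_base_ne cor_base_eqn pt_mk onE_map wmap_pt)

universe u

variable {k : Type u} [Field k] [IsAlgClosed k] [Good k] {W V : Wei k} {m j n : ℕ}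

theorem inv_cancel {K : Type u} [Field K] {a : K} (ha : a ≠ 0) (s : ℕ) (x : K) :
    a ^ s * (a⁻¹ ^ s * x) = x := by
  rw [← mul_assoc, ← mul_pow, mul_inv_cancel₀ ha, one_pow, one_mul]

theorem phi_gen (hm : m ≠ 0) (hV : IsMul W V m j) {F : Aut V} (hdp : IsPrimitiveRoot F.d m)
    (hc : F.c = 0) (he : F.e = F.d⁻¹ ^ j) {D : Cor W} (hD : IsSt D)
    {D' : Cor V} (hD' : IsSt D') {Ψ : (V.surface.pow n).Pt → ℂ}
    (hk : Kills (V.surface.pow n) Ψ) {χ : ℂ} (hnull : Null0 Ψ ∨ NullInf Ψ)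
    (hs : ∀ (q : Fin n → WPt V k) (i : Fin n), Ψ (update q i (aut F (q i))) = χ * Ψ q) {w0 : k}
    (hw0 : w0 ≠ 0)
    (K : Type u) [Field K] [Algebra k K] (hK : IsFunctionField k K) (t x y : Fin n → K)
    (hE : ∀ i, OnE (D.a (t i)) (D.b (t i)) (x i) (y i)) (ht : ∏ i, t i = algebraMap k K (w0 ^ m))
    (f : K) (hf : f ≠ 0) :
    ∑ w ∈ (finite_support_ord hK hf).toFinset, (ord w.ring f : ℂ) *
      phi m j w0 Ψ ((W.surface.pow n).eval hK (fun i => D.pt (t i) (x i) (y i)) w) = 0 := by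
  classical
  rcases Nat.eq_zero_or_pos n with hn | hn
  · subst hn
    by_cases hR : ∃ q : Fin 0 → WPt V k, Rel m j w0 (fun i : Fin 0 => (i.elim0 : WPt W k)) q
    · obtain ⟨q, hq⟩ := hR
      have h1 := hk.gen hK (fun i : Fin 0 => (i.elim0 : WPt V K)) hf
      rw [← h1]
      refine Finset.sum_congr rfl fun w _ => ?_
      congr 1
      have e1 : (W.surface.pow 0).eval hK (fun i => D.pt (t i) (x i) (y i)) w =
          fun i : Fin 0 => (i.elim0 : WPt W k) := funext fun i => i.elim0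
      have e2 : (V.surface.pow 0).eval hK
          (fun i : Fin 0 => (i.elim0 : WPt V K)) w = q := funext fun i => i.elim0
      rw [e1, e2]
      exact phi_eq hm hdp hc he hw0 hs hq
    · apply Finset.sum_eq_zero
      intro w _
      have e1 : (W.surface.pow 0).eval hK (fun i => D.pt (t i) (x i) (y i)) w =
          fun i : Fin 0 => (i.elim0 : WPt W k) := funext fun i => i.elim0
      rw [e1, phi_zero hR, mul_zero]
  · obtain ⟨L, _, _, _, _, τ, hL, hτ⟩ := exists_roots hK hm t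
    have hw0' : algebraMap k L w0 ≠ 0 := by
      rw [Ne, _root_.map_eq_zero]
      exact hw0
    have hP : (∏ i, τ i) ^ m = algebraMap k L w0 ^ m := by
      rw [← Finset.prod_pow, Finset.prod_congr rfl fun i _ => hτ i, ← map_prod, ht,
        ← IsScalarTower.algebraMap_apply, map_pow]
    have hgL : IsPrimitiveRoot (algebraMap k L F.d) m :=
      hdp.map_of_injective (algebraMap k L).injective
    have : NeZero m := ⟨hm⟩
    obtain ⟨e, -, he'⟩ := hgL.eq_pow_of_pow_eq_one (ξ := (∏ i, τ i) / algebraMap k L w0) (by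
      rw [div_pow, hP, div_self (pow_ne_zero m hw0')])
    obtain ⟨T, hTdef⟩ : ∃ T : Fin n → L, T =
        update τ ⟨0, hn⟩ ((algebraMap k L F.d ^ e)⁻¹ * τ ⟨0, hn⟩) := ⟨_, rfl⟩
    have hTm : ∀ i, T i ^ m = algebraMap K L (t i) := by
      intro i
      rw [hTdef]
      by_cases hi : i = ⟨0, hn⟩
      · subst hi
        rw [update_self, mul_pow, inv_pow, ← pow_mul, mul_comm e m, pow_mul, hgL.pow_eq_one,
          one_pow, inv_one, one_mul, hτ]
      · rw [update_of_ne hi, hτ]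
    have hTp : ∏ i, T i = algebraMap k L w0 := by
      rw [hTdef, Finset.prod_update_of_mem (Finset.mem_univ _), mul_assoc]
      have h1 : τ ⟨0, hn⟩ * ∏ i ∈ Finset.univ \ {(⟨0, hn⟩ : Fin n)}, τ i = ∏ i, τ i := by
        rw [← Finset.prod_update_of_mem (Finset.mem_univ _), update_eq_self]
      rw [h1, he']
      rw [inv_div]
      have h2 : (∏ i, τ i) ≠ 0 := by
        intro h0
        rw [h0, zero_pow hm] at hP
        exact pow_ne_zero m hw0' hP.symm
      exact div_mul_cancel₀ _ h2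
    have hT0 : ∀ i, T i ≠ 0 := by
      have h0 : ∏ i, T i ≠ 0 := by
        rw [hTp]
        exact hw0'
      rw [Finset.prod_ne_zero_iff] at h0
      exact fun i => h0 i (Finset.mem_univ i)
    have hTj : ∀ i, T i ^ j ≠ 0 := fun i => pow_ne_zero _ (hT0 i)
    obtain ⟨X, hX⟩ : ∃ X : Fin n → L, X = fun i => (T i ^ j)⁻¹ ^ 2 * algebraMap K L (x i) :=
      ⟨_, rfl⟩
    obtain ⟨Y, hY⟩ : ∃ Y : Fin n → L, Y = fun i => (T i ^ j)⁻¹ ^ 3 * algebraMap K L (y i) :=
      ⟨_, rfl⟩
    have hE' : ∀ i, OnE (D'.a (T i)) (D'.b (T i)) (X i) (Y i) := by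
      intro i
      rw [hX, hY]
      refine onE_std' hV hD hD' (hT0 i) ?_
      rw [hTm]
      exact onE_map D (hE i)
    have hf' : algebraMap K L f ≠ 0 := by
      rw [Ne, _root_.map_eq_zero]
      exact hf
    have h1 := hk.gen hL (fun i => D'.pt (T i) (X i) (Y i)) hf'
    refine CX.Pool.Agent.Helper83.QF.kills_res hK hL (fun v => phi m j w0 Ψ
      ((W.surface.pow n).eval hK (fun i => D.pt (t i) (x i) (y i)) v)) hf hf' ?_
    rw [← h1]
    refine Finset.sum_congr rfl fun w _ => ?_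
    congr 1
    have h2 := phi_val hm hV hdp hc he hD hD' hnull hs hw0 hL hE' hTp w
    change phi m j w0 Ψ (fun i => W.surface.eval hK (D.pt (t i) (x i) (y i)) (VQ.res hK hL w)) =
      Ψ (fun i => V.surface.eval hL (D'.pt (T i) (X i) (Y i)) w)
    rw [← h2]
    congr 1
    funext i
    rw [← CX.Pool.Agent.Helper83.QF.wmap_eval hK hL, wmap_pt D (hE i), hTm, hX, hY]
    dsimp only
    rw [inv_cancel (hTj i), inv_cancel (hTj i)]

theorem exists_phi (hm : m ≠ 0) (hV : IsMul W V m j) {F : Aut V} (hdp : IsPrimitiveRoot F.d m)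
    (hc : F.c = 0) (he : F.e = F.d⁻¹ ^ j) {D : Cor W} (hD : IsSt D) {D' : Cor V} (hD' : IsSt D')
    {Psi : (V.surface.pow n).Pt → ℂ} (h : Odd V n Psi) {chi : ℂ} (hnull : Null0 Psi ∨ NullInf Psi)
    (hs : ∀ (q : (V.surface.pow n).Pt) (i : Fin n),
      Psi (update q i (aut F (q i))) = chi * Psi q) {w0 : k} (hw0 : w0 ≠ 0) :
    ∃ Phi : (W.surface.pow n).Pt → ℂ, OddC D n (w0 ^ m) Phi ∧
      ∀ w x y : Fin n → k, (∀ i, OnE (D'.a (w i)) (D'.b (w i)) (x i) (y i)) → ∏ i, w i = w0 →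
        Phi (fun i => D.pt (w i ^ m) ((w i ^ j) ^ 2 * x i) ((w i ^ j) ^ 3 * y i)) =
          Psi (fun i => D'.pt (w i) (x i) (y i)) := by
  classical
  refine ⟨phi m j w0 Psi, ⟨?_, ?_, ?_, ?_, ?_⟩, ?_⟩
  · intro K _ _ hK t x y hE ht f hf
    exact phi_gen hm hV hdp hc he hD hD' h.kills hnull hs hw0 K hK t x y hE ht f hf
  · intro p i
    by_cases hR : ∃ q : Fin n → WPt V k, Rel m j w0 p q
    · obtain ⟨q, hq⟩ := hR
      rw [phi_eq hm hdp hc he hw0 hs hq, phi_eq hm hdp hc he hw0 hs (rel_neg hq i)]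
      exact h.odd q i
    · rw [phi_zero hR, phi_zero, neg_zero]
      rintro ⟨q, hq⟩
      apply hR
      have h1 := rel_neg hq i
      rw [update_self, update_idem, neg_neg', update_eq_self] at h1
      exact ⟨_, h1⟩
  · intro i i' hij p
    by_cases hR : ∃ q : Fin n → WPt V k, Rel m j w0 p q
    · obtain ⟨q, hq⟩ := hR
      rw [phi_eq hm hdp hc he hw0 hs hq, phi_eq hm hdp hc he hw0 hs (rel_swap hq (Equiv.swap i i'))]
      exact h.alt i i' hij q
    · rw [phi_zero hR, phi_zero, neg_zero]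
      rintro ⟨q, hq⟩
      apply hR
      have h1 := rel_swap hq (Equiv.swap i i')
      have h2 : (fun l => p (Equiv.swap i i' (Equiv.swap i i' l))) = p := by
        funext l
        rw [Equiv.swap_apply_self]
      rw [h2] at h1
      exact ⟨_, h1⟩
  · intro p i a ha hsing
    by_cases hR : ∃ q : Fin n → WPt V k, Rel m j w0 p q
    · obtain ⟨q, hq⟩ := hR
      rw [phi_eq hm hdp hc he hw0 hs hq]
      obtain ⟨a', b, h1, h2, h3, h4, h5, h6, h7⟩ := hq
      have hT : (a' i).u 1 ≠ 0 := by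
        rw [← h5, Finset.prod_ne_zero_iff] at hw0
        exact hw0 i (Finset.mem_univ i)
      have e1 : (WPt.mk a : WPt W k) = WPt.mk (b i) := by
        rw [← ha, h7]
      obtain ⟨l, c, hl, hc', e2, e3⟩ := mk_eq_iff.mp e1
      refine CX.Pool.Agent.Helper83.VN.odd_sing h (i := i) (h6 i) ?_
      have e4 : (b i).u = fun s => l * a.u s := funext fun s => e2 s
      have e5 : (a' i).u = ![1, (a' i).u 1] := by
        funext s
        fin_cases s
        · exact h1 i
        · rfl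
      have e6 : (b i).u = ![1, (a' i).u 1 ^ m] := by
        funext s
        fin_cases s
        · exact h2 i
        · exact h3 i
      have hA := isMul_A hV ((a' i).u 1)
      have hB := isMul_B hV ((a' i).u 1)
      rw [← e5, ← e6, e4, aeval_smul W.hA] at hA
      rw [← e5, ← e6, e4, aeval_smul W.hB] at hB
      apply mul_left_cancel₀ (pow_ne_zero (12 * j) hT)
      have e7 : (a' i).u 1 ^ (12 * j) = ((a' i).u 1 ^ (4 * j)) ^ 3 := by
        rw [← pow_mul]
        congr 1
        ring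
      have e8 : (a' i).u 1 ^ (12 * j) = ((a' i).u 1 ^ (6 * j)) ^ 2 := by
        rw [← pow_mul]
        congr 1
        ring
      rw [mul_zero, mul_add]
      have e9 : (a' i).u 1 ^ (12 * j) * (4 * MvPolynomial.aeval (a' i).u V.A ^ 3) =
          4 * (l ^ (4 * W.N) * MvPolynomial.aeval a.u W.A) ^ 3 := by
        rw [e7, ← hA]
        ring
      have e10 : (a' i).u 1 ^ (12 * j) * (27 * MvPolynomial.aeval (a' i).u V.B ^ 2) =
          27 * (l ^ (6 * W.N) * MvPolynomial.aeval a.u W.B) ^ 2 := by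
        rw [e8, ← hB]
        ring
      rw [e9, e10]
      linear_combination l ^ (12 * W.N) * hsing
    · exact phi_zero hR
  · intro p i a ha hinf
    apply phi_zero
    rintro ⟨q, hq⟩
    have f1 := rel_ne hq (i := i) ha
    rw [hD.e1] at hinf
    change a.u 0 * 1 - a.u 1 * 0 = 0 at hinf
    apply f1
    linear_combination hinf
  · intro w x y hE hw
    have hw' : ∀ i, w i ≠ 0 := by
      rw [← hw, Finset.prod_ne_zero_iff] at hw0
      exact fun i => hw0 i (Finset.mem_univ i)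
    have hE1 : ∀ i, OnE (D.a (w i ^ m)) (D.b (w i ^ m)) ((w i ^ j) ^ 2 * x i)
        ((w i ^ j) ^ 3 * y i) := fun i => onE_std hV hD hD' (hE i)
    have hE' : ∀ i, D'.pt (w i) (x i) (y i) = WPt.mk (affC (D'.base (w i)) (x i) (y i)
      (cor_base_ne D' (w i)) (cor_base_eqn D' (hE i))) := fun i => pt_mk D' (hE i)
    have hE2 : ∀ i, D.pt (w i ^ m) ((w i ^ j) ^ 2 * x i) ((w i ^ j) ^ 3 * y i) =
      WPt.mk (affC (D.base (w i ^ m)) ((w i ^ j) ^ 2 * x i) ((w i ^ j) ^ 3 * y i)
      (cor_base_ne D (w i ^ m)) (cor_base_eqn D (hE1 i))) := fun i => pt_mk D (hE1 i)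
    apply phi_eq hm hdp hc he hw0 hs
    refine ⟨fun i => affC (D'.base (w i)) (x i) (y i) (cor_base_ne D' (w i))
      (cor_base_eqn D' (hE i)), fun i => affC (D.base (w i ^ m)) ((w i ^ j) ^ 2 * x i)
      ((w i ^ j) ^ 3 * y i) (cor_base_ne D (w i ^ m)) (cor_base_eqn D (hE1 i)),
      fun i => ?_, fun i => ?_, fun i => ?_, fun i => ?_, ?_, hE', hE2⟩
    · change D'.base (w i) 0 = 1
      rw [hD'.base]
      rfl
    · change D.base (w i ^ m) 0 = 1
      rw [hD.base]
      rfl
    · change D.base (w i ^ m) 1 = D'.base (w i) 1 ^ m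
      rw [hD.base, hD'.base]
      rfl
    · change ![(w i ^ j) ^ 2 * x i, (w i ^ j) ^ 3 * y i, 1] =
        ![(D'.base (w i) 1 ^ j) ^ 2 * x i, (D'.base (w i) 1 ^ j) ^ 3 * y i, 1]
      rw [hD'.base]
      rfl
    · rw [← hw]
      refine Finset.prod_congr rfl fun i _ => ?_
      change D'.base (w i) 1 = w i
      rw [hD'.base]
      rfl

end CX.CHE
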