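import Mathlib
import Pool.Agent.Helper98.CHE.Phi2
import Pool.Agent.Helper40.CX.CHV.Tor
import Pool.Agent.Helper83.CHI.Mv2
import Pool.Agent.Helper83.CHI.Gnr

/-!
# CHE: the vanishing theorem for a character of a multiplicative base change, any model

`main_zero`: let `W` be a Weierstrass equation over the line with coordinate `u`, `j` not constant,
and let `V` be a Weierstrass equation which over the multiplicative group is the base change of `W`
by `u = w ^ m`. An odd alternating function on the `n`-th power of the surface of `V`, orthogonal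
to all principal divisors on curves, which is multiplied by `χ` if the automorphism `w ↦ g w` is
applied to one of the arguments, and which is zero if a component is over `0` (or: over infinity),
is zero if `n ≥ W.N + 1`.
-/

set_option autoImplicit false
set_option linter.unusedSectionVars false

namespace CX.CHE

open CX.VC CX.VF Function
open CX.CHC CX.CHV
open CX.Pool.Agent.Helper51.EW CX.Pool.Agent.Helper51.VN
open CX.Pool.Agent.Helper83.CHI
open CX.CHI (cor_base_ne cor_base_eqn pt_mk)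

universe u

variable {k : Type u} [Field k] [IsAlgClosed k] [Good k] {W V : Wei k} {m j n : ℕ}

/-- The parameter of a line. -/
private noncomputable def mv3_l (T S : Fin n → k) (i : Fin n) : Polynomial k :=
  Polynomial.C (T i) + Polynomial.X * Polynomial.C (S i - T i)

private lemma mv3_l_eval (T S : Fin n → k) (i : Fin n) (x : k) :
    (mv3_l T S i).eval x = T i + x * (S i - T i) := by
  unfold mv3_l
  simp

/-- The points of a line which are not general. -/
private lemma mv3_fin (D : Cor W) (T : Fin n → k) {S : Fin n → k} (hS : Gn D S) :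
    {x : k | ¬ Gn D (fun i => T i + x * (S i - T i))}.Finite := by
  classical
  have hl1 : ∀ i, (mv3_l T S i).eval 1 = S i := by
    intro i
    rw [mv3_l_eval]
    ring
  have hae : ∀ (p : Polynomial k) (x : k), Polynomial.aeval x p = p.eval x := fun p x => by
    rw [Polynomial.coe_aeval_eq_eval]
  obtain ⟨pa, hpa⟩ : ∃ pa : Fin n → Polynomial k, pa = fun i => D.al.comp (mv3_l T S i) :=
    ⟨_, rfl⟩
  obtain ⟨pb, hpb⟩ : ∃ pb : Fin n → Polynomial k, pb = fun i => D.be.comp (mv3_l T S i) :=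
    ⟨_, rfl⟩
  obtain ⟨pd, hpd⟩ : ∃ pd : Fin n → Polynomial k, pd = fun i => pb i ^ 2 - pa i ^ 3 := ⟨_, rfl⟩
  have ha : ∀ i x, (pa i).eval x = D.a (T i + x * (S i - T i)) := by
    intro i x
    rw [hpa, Polynomial.eval_comp, mv3_l_eval]
    unfold Cor.a
    rw [hae]
  have hb : ∀ i x, (pb i).eval x = D.b (T i + x * (S i - T i)) := by
    intro i x
    rw [hpb, Polynomial.eval_comp, mv3_l_eval]
    unfold Cor.b
    rw [hae]
  have hd : ∀ i x, (pd i).eval x = D.d (T i + x * (S i - T i)) := by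
    intro i x
    rw [hpd]
    simp only [Polynomial.eval_sub, Polynomial.eval_pow, ha, hb]
    rfl
  obtain ⟨P, hP⟩ : ∃ P : Polynomial k, P = (∏ i, (pa i * pb i * pd i)) *
      ∏ i, ∏ j, (if i = j then 1 else (pb i ^ 2 * pd j - pb j ^ 2 * pd i)) := ⟨_, rfl⟩
  have hiff : ∀ x, P.eval x ≠ 0 ↔ Gn D (fun i => T i + x * (S i - T i)) := by
    intro x
    have h1 : P.eval x = (∏ i, ((pa i).eval x * (pb i).eval x * (pd i).eval x)) *
        ∏ i, ∏ j, (if i = j then 1 else
          ((pb i).eval x ^ 2 * (pd j).eval x - (pb j).eval x ^ 2 * (pd i).eval x)) := by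
      rw [hP, Polynomial.eval_mul, Polynomial.eval_prod, Polynomial.eval_prod]
      congr 1
      · apply Finset.prod_congr rfl
        intro i _
        simp only [Polynomial.eval_mul]
      · apply Finset.prod_congr rfl
        intro i _
        rw [Polynomial.eval_prod]
        apply Finset.prod_congr rfl
        intro j _
        split_ifs
        · rw [Polynomial.eval_one]
        · simp only [Polynomial.eval_sub, Polynomial.eval_mul, Polynomial.eval_pow]
    rw [h1, mul_ne_zero_iff, Finset.prod_ne_zero_iff, Finset.prod_ne_zero_iff]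
    simp only [ha, hb, hd]
    constructor
    · rintro ⟨h2, h3⟩
      refine ⟨fun i => ?_, fun i => ?_, fun i => ?_, fun i j hij => ?_⟩
      · exact left_ne_zero_of_mul (left_ne_zero_of_mul (h2 i (Finset.mem_univ i)))
      · exact right_ne_zero_of_mul (left_ne_zero_of_mul (h2 i (Finset.mem_univ i)))
      · exact right_ne_zero_of_mul (h2 i (Finset.mem_univ i))
      · have h4 := h3 i (Finset.mem_univ i)
        rw [Finset.prod_ne_zero_iff] at h4
        have h5 := h4 j (Finset.mem_univ j)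
        rw [if_neg hij] at h5
        exact sub_ne_zero.mp h5
    · intro h2
      refine ⟨fun i _ => mul_ne_zero (mul_ne_zero (h2.ha i) (h2.hb i)) (h2.hd i), fun i _ => ?_⟩
      rw [Finset.prod_ne_zero_iff]
      intro j _
      split_ifs with hij
      · exact one_ne_zero
      · exact sub_ne_zero.mpr (h2.hj i j hij)
  have hP0 : P ≠ 0 := by
    rintro h0
    have h1 : P.eval 1 ≠ 0 := by
      rw [hiff]
      have : (fun i => T i + 1 * (S i - T i)) = S := by
        funext i
        ring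
      rw [this]
      exact hS
    apply h1
    rw [h0, Polynomial.eval_zero]
  apply (P.roots.toFinset.finite_toSet).subset
  intro x hx
  rw [Set.mem_ofPred_eq, ← hiff, not_not] at hx
  rw [Finset.mem_coe, Multiset.mem_toFinset, Polynomial.mem_roots hP0]
  exact hx

/-- The points of a line with a zero coordinate. -/
private lemma mv3_zero {T S : Fin n → k} (hT : ∀ i, T i ≠ 0) :
    {x : k | ∃ i, T i + x * (S i - T i) = 0}.Finite := by
  have h1 : {x : k | ∃ i, T i + x * (S i - T i) = 0} = ⋃ i, {x : k | T i + x * (S i - T i) = 0} := by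
    ext x
    simp only [Set.mem_iUnion, Set.mem_ofPred_eq]
  rw [h1]
  refine Set.finite_iUnion fun i => ?_
  by_cases h2 : S i - T i = 0
  · have h3 : {x : k | T i + x * (S i - T i) = 0} = ∅ := by
      ext x
      rw [Set.mem_ofPred_eq, h2, mul_zero, add_zero]
      exact ⟨fun h => (hT i h).elim, fun h => h.elim⟩
    rw [h3]
    exact Set.finite_empty
  · refine (Set.finite_singleton (-T i / (S i - T i))).subset ?_
    intro x hx
    rw [Set.mem_ofPred_eq] at hx
    rw [Set.mem_singleton_iff, eq_div_iff h2]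
    linear_combination hx

lemma gn_down (hV : IsMul W V m j) {D : Cor W} (h : IsSt D) {D' : Cor V} (h' : IsSt D')
    {w : Fin n → k} (hw0 : ∀ i, w i ≠ 0) (hw : Gn D' w) : Gn D (fun i => w i ^ m) where
  ha i := by
    rw [← std_a hV h h']
    exact mul_ne_zero (pow_ne_zero _ (hw0 i)) (hw.ha i)
  hb i := by
    rw [← std_b hV h h']
    exact mul_ne_zero (pow_ne_zero _ (hw0 i)) (hw.hb i)
  hd i := by
    rw [← std_d hV h h']
    exact mul_ne_zero (pow_ne_zero _ (hw0 i)) (hw.hd i)
  hj i l hil := by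
    rw [← std_b hV h h', ← std_b hV h h', ← std_d hV h h', ← std_d hV h h']
    intro h1
    apply hw.hj i l hil
    apply mul_left_cancel₀ (mul_ne_zero (pow_ne_zero (12 * j) (hw0 i))
      (pow_ne_zero (12 * j) (hw0 l)))
    linear_combination h1

lemma gn_up (hV : IsMul W V m j) {D : Cor W} (h : IsSt D) {D' : Cor V} (h' : IsSt D')
    {w : Fin n → k} (hw : Gn D (fun i => w i ^ m)) : Gn D' w where
  ha i := by
    have h1 := hw.ha i
    rw [← std_a hV h h'] at h1
    exact right_ne_zero_of_mul h1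
  hb i := by
    have h1 := hw.hb i
    rw [← std_b hV h h'] at h1
    exact right_ne_zero_of_mul h1
  hd i := by
    have h1 := hw.hd i
    rw [← std_d hV h h'] at h1
    exact right_ne_zero_of_mul h1
  hj i l hil := by
    have h1 := hw.hj i l hil
    rw [← std_b hV h h', ← std_b hV h h', ← std_d hV h h', ← std_d hV h h'] at h1
    intro h2
    apply h1
    linear_combination (w i ^ (12 * j) * w l ^ (12 * j)) * h2

/-- The vanishing theorem, in terms of adapted coordinates. -/
theorem main_zero_aux (hm : m ≠ 0) (hV : IsMul W V m j) {F : Aut V} (hdp : IsPrimitiveRoot F.d m)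
    (hc : F.c = 0) (he : F.e = F.d⁻¹ ^ j) {D₀ : Cor W} (hD₀ : IsSt D₀) {D : Cor V} (hD : IsSt D)
    (h1 : 1 ≤ W.N) (hn : W.N + 1 ≤ n)
    (hj : ∀ c c' : k, (c ≠ 0 ∨ c' ≠ 0) →
      Polynomial.C c * D₀.be ^ 2 ≠ Polynomial.C c' * D₀.al ^ 3)
    {Ψ : (V.surface.pow n).Pt → ℂ} (h : CX.Pool.Agent.Helper51.EW.Odd V n Ψ) {χ : ℂ}
    (hnull : Null0 Ψ ∨ NullInf Ψ)
    (hs : ∀ (q : (V.surface.pow n).Pt) (i : Fin n), Ψ (update q i (aut F (q i))) = χ * Ψ q)
    (r : (V.surface.pow n).Pt) : Ψ r = 0 := by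
  classical
  refine torus_pow h ?_ r
  intro r hr
  by_contra hne
  have hpr : ∀ i, ∃ t x y : k, t ≠ 0 ∧ OnE (D.a t) (D.b t) x y ∧ r i = D.pt t x y := by
    intro i
    obtain ⟨a, ha, ha0, ha1⟩ := hr i
    rcases pt_or D (r i) with h2 | ⟨c, h2, h3⟩ | ⟨c, h2, h3⟩ | ⟨t, x, y, -, h3, h4, h5⟩
    · exact absurd (CX.Pool.Agent.Helper51.EW.Odd.zero_of_neg h h2) hne
    · exact absurd (CX.Pool.Agent.Helper83.VN.odd_sing h h2 h3) hne
    · exfalso
      have h4 : c.u 0 = 0 := by
        rw [hD.e1] at h3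
        change c.u 0 * 1 - c.u 1 * 0 = 0 at h3
        linear_combination h3
      have e1 : (WPt.mk c : WPt V k) = WPt.mk a := by
        rw [← ha, h2]
      obtain ⟨l, c', hl, hc', e2, e3⟩ := mk_eq_iff.mp e1
      apply ha0
      rw [e2 0, h4, mul_zero]
    · refine ⟨t, x, y, ?_, h4, h5⟩
      have e1 : (WPt.mk (affC (D.base t) x y (cor_base_ne D t) (cor_base_eqn D h4)) : WPt V k) =
          WPt.mk a := by
        rw [← ha, h5]
        exact (pt_mk D h4).symm
      obtain ⟨l, c', hl, hc', e2, e3⟩ := mk_eq_iff.mp e1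
      have e4 : a.u 1 = l * D.base t 1 := e2 1
      rw [hD.base] at e4
      change a.u 1 = l * t at e4
      intro h0
      apply ha1
      rw [e4, h0, mul_zero]
  choose T x y hT0 hE hpt using hpr
  -- general points
  have hgen : ∀ w x y : Fin n → k, (∀ i, w i ≠ 0) → Gn D w →
      (∀ i, OnE (D.a (w i)) (D.b (w i)) (x i) (y i)) →
      Ψ (fun i => D.pt (w i) (x i) (y i)) = 0 := by
    intro w x y hw0 hw hE
    have h0 : ∏ i, w i ≠ 0 := Finset.prod_ne_zero_iff.mpr fun i _ => hw0 i
    obtain ⟨Φ, hΦ, hΦΨ⟩ := exists_phi hm hV hdp hc he hD₀ hD h hnull hs h0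
    rw [← hΦΨ w x y hE rfl]
    refine ps_zero h1 hn hΦ ?_ (gn_down hV hD₀ hD hw0 hw) (fun i => (w i ^ j) ^ 2 * x i)
      (fun i => (w i ^ j) ^ 3 * y i) (fun i => onE_std hV hD₀ hD (hE i))
    unfold Prc
    rw [Finset.prod_pow, Algebra.algebraMap_self, RingHom.id_apply]
  obtain ⟨S₀, hS₀⟩ := exists_gn D₀ hj n
  choose S hSS using fun i => IsAlgClosed.exists_pow_nat_eq (S₀ i) (Nat.pos_of_ne_zero hm)
  have hS : Gn D S := by
    refine gn_up hV hD₀ hD ?_
    have e1 : (fun i => S i ^ m) = S₀ := funext hSS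
    rw [e1]
    exact hS₀
  have hfin := (mv3_fin D T hS).union (mv3_zero (S := S) hT0)
  -- the function field
  obtain ⟨K, _, _, τ, Y, hK, hτ, hY⟩ := exists_poly_roots (k := k) (m := 2) two_ne_zero
    (fun i => Polynomial.C (x i ^ 3) - Polynomial.C (3 * x i) * D.al.comp (mv3_l T S i) -
      2 * D.be.comp (mv3_l T S i))
  obtain ⟨t, ht⟩ : ∃ t : Fin n → K, t = fun i =>
    algebraMap k K (T i) + τ * algebraMap k K (S i - T i) := ⟨_, rfl⟩
  have hlt : ∀ i, Polynomial.aeval τ (mv3_l T S i) = t i := by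
    intro i
    rw [ht]
    unfold mv3_l
    simp
  have hYE : ∀ i, OnE (D.a (t i)) (D.b (t i)) (algebraMap k K (x i)) (Y i) := by
    intro i
    unfold OnE
    rw [hY i]
    simp only [map_sub, map_mul, Polynomial.aeval_C, Polynomial.aeval_comp, hlt, map_pow,
      map_ofNat]
    unfold Cor.a Cor.b
    ring
  obtain ⟨w₀, hw₀⟩ := exists_place hK hτ
  have hτ0 : IsRes w₀ τ 0 := isRes_zero_iff.mpr hw₀
  have htv : ∀ (w : Place k K) (c : k), IsRes w τ c → ∀ i,
      IsRes w (t i) (T i + c * (S i - T i)) := by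
    intro w c hc i
    rw [ht]
    exact (isRes_const _).add (hc.mul (isRes_const _))
  have hYv : ∀ (w : Place k K) (c : k), IsRes w τ c → ∀ i, ∃ e, IsRes w (Y i) e ∧
      OnE (D.a (T i + c * (S i - T i))) (D.b (T i + c * (S i - T i))) (x i) e := by
    intro w c hc i
    have h2 : IsRes w (Y i ^ 2) (x i ^ 3 - 3 * D.a (T i + c * (S i - T i)) * x i -
        2 * D.b (T i + c * (S i - T i))) := by
      rw [hYE i]
      have e3 : IsRes w (3 : K) (3 : k) := by
        have := isRes_const (v := w) (3 : k)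
        rwa [map_ofNat] at this
      have e2 : IsRes w (2 : K) (2 : k) := by
        have := isRes_const (v := w) (2 : k)
        rwa [map_ofNat] at this
      exact (((isRes_const _).pow 3).sub ((e3.mul (isRes_a D (htv w c hc i))).mul
        (isRes_const _))).sub (e2.mul (isRes_b D (htv w c hc i)))
    obtain ⟨e, he, he'⟩ := exists_res_of_pow hK two_ne_zero h2
    exact ⟨e, he, he'⟩
  -- the signs
  have hsg : ∀ i, ∃ ε : k, ε ^ 2 = 1 ∧ IsRes w₀ (algebraMap k K ε * Y i) (y i) := by
    intro i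
    obtain ⟨e, he, he'⟩ := hYv w₀ 0 hτ0 i
    rw [zero_mul, add_zero] at he'
    have h2 : e ^ 2 = y i ^ 2 := by
      have := hE i
      unfold OnE at this he'
      rw [he', this]
    rcases sq_eq_sq_iff_eq_or_eq_neg.mp h2 with h3 | h3
    · refine ⟨1, one_pow 2, ?_⟩
      rw [map_one, one_mul, ← h3]
      exact he
    · refine ⟨-1, by ring, ?_⟩
      rw [map_neg, map_one, neg_one_mul]
      have := he.neg
      rwa [h3, neg_neg] at this
  choose ε hε hεY using hsg
  obtain ⟨c, hc⟩ : ∃ c : (V.surface.pow n).Mor K, c = fun i =>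
      D.pt (t i) (algebraMap k K (x i)) (algebraMap k K (ε i) * Y i) := ⟨_, rfl⟩
  have hcE : ∀ i, OnE (D.a (t i)) (D.b (t i)) (algebraMap k K (x i))
      (algebraMap k K (ε i) * Y i) := by
    intro i
    have := hYE i
    unfold OnE at this ⊢
    rw [mul_pow, ← map_pow, hε, map_one, one_mul, this]
  have hval : ∀ (w : Place k K) (c₀ : k), IsRes w τ c₀ → ∀ e : Fin n → k,
      (∀ i, IsRes w (algebraMap k K (ε i) * Y i) (e i)) →
      (V.surface.pow n).eval hK c w = fun i => D.pt (T i + c₀ * (S i - T i)) (x i) (e i) := by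
    intro w c₀ hc₀ e he
    funext i
    rw [hc]
    exact eval_pt D hK w (hcE i) (htv w c₀ hc₀ i) (isRes_const _) (he i)
  have key := CX.Pool.Agent.Helper83.KV.app h.kills hK c (CX.Pool.Agent.Helper83.VN.fin_pl hK hτ hfin) (by
    intro w hw
    rw [Set.mem_ofPred_eq, not_or, not_not, not_exists] at hw
    obtain ⟨hw1, hw2⟩ := hw
    obtain ⟨c₀, hc₀⟩ := exists_res hK hw1
    have hG : Gn D (fun i => T i + c₀ * (S i - T i)) := by
      by_contra h0
      exact hw2 c₀ ⟨Or.inl h0, hc₀⟩
    have hG0 : ∀ i, T i + c₀ * (S i - T i) ≠ 0 := fun i h0 => hw2 c₀ ⟨Or.inr ⟨i, h0⟩, hc₀⟩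
    choose e he he' using hYv w c₀ hc₀
    rw [hval w c₀ hc₀ (fun i => ε i * e i) (fun i => (isRes_const _).mul (he i))]
    refine hgen _ x (fun i => ε i * e i) hG0 hG (fun i => ?_)
    have := he' i
    unfold OnE at this ⊢
    rw [mul_pow, hε, one_mul, this]) w₀
  rw [hval w₀ 0 hτ0 y hεY] at key
  apply hne
  rw [← key]
  congr 1
  funext i
  rw [hpt i, zero_mul, add_zero]

/-- The vanishing theorem. -/
theorem main_zero (hm : m ≠ 0) (hV : IsMul W V m j) {F : Aut V} (hdp : IsPrimitiveRoot F.d m)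
    (hc : F.c = 0) (he : F.e = F.d⁻¹ ^ j) (hΔ : 4 * W.A ^ 3 + 27 * W.B ^ 2 ≠ 0)
    (hΔ' : 4 * V.A ^ 3 + 27 * V.B ^ 2 ≠ 0) (h1 : 1 ≤ W.N) (hn : W.N + 1 ≤ n)
    (hj : ∀ c d : k, (c ≠ 0 ∨ d ≠ 0) → MvPolynomial.C c * W.A ^ 3 ≠ MvPolynomial.C d * W.B ^ 2)
    {Ψ : (V.surface.pow n).Pt → ℂ} (h : CX.Pool.Agent.Helper51.EW.Odd V n Ψ) {χ : ℂ}
    (hnull : Null0 Ψ ∨ NullInf Ψ)
    (hs : ∀ (q : (V.surface.pow n).Pt) (i : Fin n), Ψ (update q i (aut F (q i))) = χ * Ψ q)
    (r : (V.surface.pow n).Pt) : Ψ r = 0 := by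
  obtain ⟨D₀, hD₀⟩ := exists_st W hΔ
  obtain ⟨D, hD⟩ := exists_st V hΔ'
  refine main_zero_aux hm hV hdp hc he hD₀ hD h1 hn ?_ h hnull hs r
  intro c c' hc he
  obtain ⟨a, b, hab, h2⟩ := cor_j D₀ hc he
  exact hj a b hab h2

end CX.CHE
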