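import Mathlib
import Pool.Agent.Helper98.CHE.Mv3
import Pool.Agent.Helper98.CHI.Cor
import Pool.Agent.Helper40.CX.CHV.Null

/-!
# CHE: Voisin's property for the characters of a multiplicative base change, any model
-/

set_option autoImplicit false
set_option linter.unusedSectionVars false

namespace CX.CHE

open CX.VC CX.VF Function
open CX.CHC CX.CHV
open CX.CHI (VoisinChi voisinChi_of_odd)
open CX.Pool.Agent.Helper21.TO (Minimal)
open CX.Pool.Agent.Helper51.EW

universe u

variable {k : Type u} [Field k] [IsAlgClosed k] [Good k] {W V : Wei k} {m j : ℕ}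

theorem aut_neg (F : Aut V) (q : WPt V k) : aut F (neg q) = neg (aut F q) := by
  obtain ⟨a, rfl⟩ := exists_mk q
  rw [neg_mk, aut_mk, aut_mk, neg_mk]
  refine mk_eq_iff.mpr ⟨1, 1, one_ne_zero, one_ne_zero, fun i => ?_, fun i => ?_⟩
  · rw [one_mul]
    rfl
  · rw [one_pow, one_mul, one_mul]
    fin_cases i
    · rfl
    · exact neg_mul_eq_mul_neg _ _
    · rfl

/-- Voisin's property for the character `χ ≠ 1` of the automorphism `w ↦ g w` of the minimal
Weierstrass surface `V` which, over the multiplicative group, is the base change by `u = w ^ m` of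
a rational Weierstrass surface `W` with non-constant `j`. -/
theorem voisinChi_wei (hm : m ≠ 0) (hV : IsMul W V m j) (hmin : Minimal V) (hN : W.N = 1)
    (hΔ : 4 * W.A ^ 3 + 27 * W.B ^ 2 ≠ 0) (hΔ' : 4 * V.A ^ 3 + 27 * V.B ^ 2 ≠ 0)
    (hj : ∀ c d : k, (c ≠ 0 ∨ d ≠ 0) →
      MvPolynomial.C c * W.A ^ 3 ≠ MvPolynomial.C d * W.B ^ 2) {g : k}
    (hg : IsPrimitiveRoot g m) (F : Aut V) (hd : F.d = g) (hc : F.c = 0) (he : F.e = g⁻¹ ^ j)
    {χ : ℂ} (hχ : χ ≠ 1) : VoisinChi V.surface (aut F) χ 2 := by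
  refine voisinChi_of_odd hχ (fun q => aut_neg F q) fun Ψ h hs q => ?_
  have hdp : IsPrimitiveRoot F.d m := by
    rw [hd]
    exact hg
  by_cases hnull : Null0 Ψ ∨ NullInf Ψ
  · exact main_zero hm hV hdp hc (by rw [he, hd]) hΔ hΔ' (by rw [hN]) (by rw [hN]) hj h hnull hs q
  · rw [not_or] at hnull
    obtain ⟨n1, n2⟩ := hnull
    unfold Null0 at n1
    unfold NullInf at n2
    push Not at n1 n2
    obtain ⟨q1, i1, a1, e1, e2, e3⟩ := n1
    obtain ⟨q2, i2, a2, f1, f2, f3⟩ := n2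
    rcases null h F hc hχ hs e1 e2 with h3 | ⟨-, t, ht, hF, hχt⟩
    · exact absurd h3 e3
    rcases null_inf h F hχ hs f1 f2 with h3 | ⟨-, t', ht', hF', hχt'⟩
    · exact absurd h3 f3
    have htt : t' = t := hχt'.unique hχt
    subst htt
    exact CX.CHD.bad_zero hm hV hmin hN hj hΔ' hg F hd hc he ht hχt hF hF' le_rfl h hs q

end CX.CHE
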