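import Mathlib
import Pool.Agent.Helper98.CHE.Wei
import Pool.Agent.Helper40.CX.CHV.MainM

/-!
# CHE: the function theorem for the multiplicative base changes
-/

set_option autoImplicit false

namespace CX.CHE

open CX.CHV CX.CHI CX.Pool.Agent.Helper21.TO

/-- The function theorem for the minimal models of the multiplicative base changes of the rational
Weierstrass equations with nonconstant `j`. -/
theorem funMul : FunMul := by
  intro k _ _ _ W V m j hmk hV hmin hN hj g hg F hd hc he χ hχ
  have hm : m ≠ 0 := by
    rintro rfl
    exact hmk Nat.cast_zero
  exact voisinChi_wei hm hV hmin hN (disc_of_hj hj) (disc_mul hm hV (disc_of_hj hj)) hj hg F hd hc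
    he hχ

end CX.CHE
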